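import Pool.Agent.H16.PC.Rot

/-!
# Rotation classes

A state is a linear forest `F` of a bipartite graph `G` with sides `U` and its complement, together
with a family `T` of tokens (some of the missing degrees at vertices of `U`) which are allowed to
move.
-/

set_option autoImplicit false

namespace Pool.Agent.H16.PC

open SimpleGraph

variable {V : Type*} [Fintype V] [DecidableEq V]

/-- Linear forests of `G`: acyclic subgraphs of maximum degree at most two. -/
def LF (G F : SimpleGraph V) : Prop := F ≤ G ∧ F.IsAcyclic ∧ ∀ v, dg F v ≤ 2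

/-- The total degree of `F` on `U`. -/
noncomputable def UD (U : Finset V) (F : SimpleGraph V) : ℕ := ∑ u ∈ U, dg F u

/-- `F` is a linear forest of `G` with the largest total degree on `U`. -/
def MaxLF (G : SimpleGraph V) (U : Finset V) (F : SimpleGraph V) : Prop :=
  LF G F ∧ ∀ F', LF G F' → UD U F' ≤ UD U F

/-- A forest with tokens. -/
structure St (V : Type*) where
  /-- the forest -/
  F : SimpleGraph V
  /-- the tokens -/
  T : V → ℕ

/-- The number of tokens. -/
def tot (s : St V) : ℕ := ∑ v, s.T v

/-- Good states. -/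
def Good (G : SimpleGraph V) (U : Finset V) (s : St V) : Prop :=
  MaxLF G U s.F ∧ (∀ v, s.T v + dg s.F v ≤ 2) ∧ ∀ v, v ∉ U → s.T v = 0

/-- Move one token from `x` to `z`. -/
def upd (T : V → ℕ) (x z : V) : V → ℕ :=
  fun v => if v = x then T v - 1 else if v = z then T v + 1 else T v

/-- One rotation. -/
def Step (G : SimpleGraph V) (U : Finset V) (s s' : St V) : Prop :=
  ∃ x y z, x ∈ U ∧ y ∉ U ∧ 1 ≤ s.T x ∧ G.Adj x y ∧ ¬ s.F.Adj x y ∧ s.F.Adj y z ∧
    (mv s.F x y z).IsAcyclic ∧ s' = ⟨mv s.F x y z, upd s.T x z⟩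

/-- Reachability by rotations. -/
def Reach (G : SimpleGraph V) (U : Finset V) (s s' : St V) : Prop :=
  Relation.ReflTransGen (Step G U) s s'

/-- `G` is bipartite with sides `U` and its complement. -/
def Bip (G : SimpleGraph V) (U : Finset V) : Prop := ∀ a b, G.Adj a b → (a ∈ U ↔ b ∉ U)

open Classical in
/-- The positions which the tokens of `s` can reach. -/
noncomputable def pos (G : SimpleGraph V) (U : Finset V) (s : St V) : Finset V :=
  Finset.univ.filter (fun v => ∃ s', Reach G U s s' ∧ 1 ≤ s'.T v)

variable {G : SimpleGraph V} {U : Finset V}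

theorem mem_pos {s : St V} {v : V} : v ∈ pos G U s ↔ ∃ s', Reach G U s s' ∧ 1 ≤ s'.T v := by
  classical
  simp [pos]

theorem sum_upd (T : V → ℕ) {x z : V} (hxz : x ≠ z) (hx : 1 ≤ T x) :
    ∑ v, upd T x z v = ∑ v, T v := by
  have h : ∀ v, upd T x z v + (if v = x then 1 else 0) = T v + (if v = z then 1 else 0) := by
    intro v
    unfold upd
    by_cases h1 : v = x
    · subst h1
      simp only [if_true, if_neg hxz]
      omega
    · by_cases h2 : v = z
      · subst h2
        simp [h1]
      · simp [h1, h2]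
  have h2 : ∑ v, (upd T x z v + (if v = x then 1 else 0)) =
      ∑ v, (T v + (if v = z then 1 else 0)) := Finset.sum_congr rfl (fun v _ => h v)
  rw [Finset.sum_add_distrib, Finset.sum_add_distrib] at h2
  simp only [Finset.sum_ite_eq', Finset.mem_univ, if_true] at h2
  omega

theorem UD_mv {F : SimpleGraph V} {x y z : V} (hx : x ∈ U) (hz : z ∈ U) (hy : y ∉ U)
    (hn : ¬ F.Adj x y) (hyz : F.Adj y z) : UD U (mv F x y z) = UD U F := by
  have hxy : x ≠ y := by rintro rfl; exact hy hx
  have hxz : x ≠ z := by rintro rfl; exact hn hyz.symm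
  have h : ∀ v ∈ U, dg (mv F x y z) v + (if v = z then 1 else 0) =
      dg F v + (if v = x then 1 else 0) := by
    intro v hv
    by_cases h1 : v = x
    · subst h1
      rw [dg_mv_x hxy hxz hn]
      simp [hxz]
    · by_cases h2 : v = z
      · subst h2
        rw [if_pos rfl, if_neg h1, dg_mv_z hxy hxz hyz]
        rfl
      · have h3 : v ≠ y := by rintro rfl; exact hy hv
        rw [dg_mv_other hxy h1 h3 h2]
        simp [h1, h2]
  have h2 : ∑ v ∈ U, (dg (mv F x y z) v + (if v = z then 1 else 0)) =
      ∑ v ∈ U, (dg F v + (if v = x then 1 else 0)) := Finset.sum_congr rfl h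
  rw [Finset.sum_add_distrib, Finset.sum_add_distrib] at h2
  simp only [Finset.sum_ite_eq', hx, hz, if_true] at h2
  unfold UD
  omega

theorem step_good (hG : Bip G U) {s s' : St V} (hs : Good G U s) (h : Step G U s s') :
    Good G U s' := by
  obtain ⟨x, y, z, hx, hy, hT, hxy, hn, hyz, hac, rfl⟩ := h
  obtain ⟨⟨⟨hle, _, hdg⟩, hmax⟩, hT2, hT0⟩ := hs
  have hz : z ∈ U := by
    by_contra hz
    exact hy ((hG y z (hle hyz)).2 hz)
  have hne : x ≠ y := hxy.ne
  have hxz : x ≠ z := by rintro rfl; exact hn hyz.symm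
  have hyz' : y ≠ z := hyz.ne
  have hdeg : ∀ v, upd s.T x z v + dg (mv s.F x y z) v ≤ 2 := by
    intro v
    unfold upd
    by_cases h1 : v = x
    · subst h1
      rw [dg_mv_x hne hxz hn, if_pos rfl]
      have := hT2 v
      omega
    · by_cases h2 : v = z
      · subst h2
        rw [if_neg h1, if_pos rfl]
        have h3 := dg_mv_z (F := s.F) hne hxz hyz
        have := hT2 v
        omega
      · rw [if_neg h1, if_neg h2]
        by_cases h3 : v = y
        · subst h3
          rw [dg_mv_y hne hyz hn]
          exact hT2 v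
        · rw [dg_mv_other hne h1 h3 h2]
          exact hT2 v
  refine ⟨⟨⟨?_, hac, ?_⟩, ?_⟩, hdeg, ?_⟩
  · intro a b hab
    have hab' : (mv s.F x y z).Adj a b := hab
    rw [mv_adj hne] at hab'
    rcases hab' with ⟨h, _⟩ | h
    · exact hle h
    · rw [Sym2.eq_iff] at h
      rcases h with ⟨rfl, rfl⟩ | ⟨rfl, rfl⟩
      · exact hxy
      · exact hxy.symm
  · intro v
    have := hdeg v
    show dg (mv s.F x y z) v ≤ 2
    omega
  · intro F' hF'
    show UD U F' ≤ UD U (mv s.F x y z)
    rw [UD_mv hx hz hy hn hyz]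
    exact hmax F' hF'
  · intro v hv
    show upd s.T x z v = 0
    unfold upd
    have h1 : v ≠ x := by rintro rfl; exact hv hx
    have h2 : v ≠ z := by rintro rfl; exact hv hz
    rw [if_neg h1, if_neg h2]
    exact hT0 v hv

theorem step_tot {s s' : St V} (h : Step G U s s') : tot s' = tot s := by
  obtain ⟨x, y, z, hx, hy, hT, hxy, hn, hyz, hac, rfl⟩ := h
  have hxz : x ≠ z := by rintro rfl; exact hn hyz.symm
  exact sum_upd s.T hxz hT

theorem reach_good (hG : Bip G U) {s s' : St V} (hs : Good G U s) (h : Reach G U s s') :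
    Good G U s' := by
  induction h with
  | refl => exact hs
  | tail _ h ih => exact step_good hG ih h

theorem reach_tot {s s' : St V} (h : Reach G U s s') : tot s' = tot s := by
  induction h with
  | refl => rfl
  | tail _ h ih => rw [step_tot h, ih]

/-- Static additional tokens do not matter. -/
theorem step_lift {s s' : St V} (h : Step G U s s') (R : V → ℕ) :
    Step G U ⟨s.F, fun v => s.T v + R v⟩ ⟨s'.F, fun v => s'.T v + R v⟩ := by
  obtain ⟨x, y, z, hx, hy, hT, hxy, hn, hyz, hac, rfl⟩ := h
  refine ⟨x, y, z, hx, hy, ?_, hxy, hn, hyz, hac, ?_⟩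
  · show 1 ≤ s.T x + R x
    omega
  · congr 1
    funext v
    unfold upd
    by_cases h1 : v = x
    · subst h1
      simp only [if_true]
      omega
    · by_cases h2 : v = z
      · subst h2
        simp only [if_neg h1, if_true]
        omega
      · simp only [if_neg h1, if_neg h2]

theorem reach_lift {s s' : St V} (h : Reach G U s s') (R : V → ℕ) :
    Reach G U ⟨s.F, fun v => s.T v + R v⟩ ⟨s'.F, fun v => s'.T v + R v⟩ := by
  induction h with
  | refl => exact Relation.ReflTransGen.refl
  | tail _ h ih => exact ih.tail (step_lift h R)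

theorem pos_subset (hG : Bip G U) {s : St V} (hs : Good G U s) : pos G U s ⊆ U := by
  intro v hv
  obtain ⟨s', h, h1⟩ := mem_pos.1 hv
  by_contra hvU
  have := (reach_good hG hs h).2.2 v hvU
  omega

/-- The number of `F`-neighbours of `y` which can carry a token does not change. -/
theorem reach_f (hG : Bip G U) {s0 s : St V} (hs0 : Good G U s0) (h : Reach G U s0 s) {y : V}
    (hy : y ∉ U) :
    (nb s.F y ∩ pos G U s0).card = (nb s0.F y ∩ pos G U s0).card := by
  induction h with
  | refl => rfl
  | @tail s s' hr hst ih =>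
    rw [← ih]
    have hst0 := hst
    obtain ⟨x, w, z, hx, hw, hT, hxw, hn, hwz, hac, rfl⟩ := hst
    have hne : x ≠ w := hxw.ne
    have hxz : x ≠ z := by rintro rfl; exact hn hwz.symm
    have hgs := reach_good hG hs0 hr
    have hz : z ∈ U := by
      by_contra hz
      exact hw ((hG w z (hgs.1.1.1 hwz)).2 hz)
    by_cases hyw : y = w
    · subst hyw
      have hxp : x ∈ pos G U s0 := mem_pos.2 ⟨s, hr, hT⟩
      have hzp : z ∈ pos G U s0 := by
        refine mem_pos.2 ⟨_, hr.tail hst0, ?_⟩
        show 1 ≤ upd s.T x z z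
        unfold upd
        rw [if_neg hxz.symm, if_pos rfl]
        omega
      show (nb (mv s.F x y z) y ∩ pos G U s0).card = _
      rw [nb_mv_y hne hwz.ne, Finset.insert_inter_of_mem hxp, Finset.card_insert_of_notMem,
        Finset.erase_inter, Finset.card_erase_add_one]
      · exact Finset.mem_inter.2 ⟨mem_nb.2 hwz, hzp⟩
      · intro h
        have := (Finset.mem_erase.1 (Finset.mem_inter.1 h).1).2
        exact hn (mem_nb.1 this).symm
    · have h1 : y ≠ x := by rintro rfl; exact hy hx
      have h3 : y ≠ z := by rintro rfl; exact hy hz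
      show (nb (mv s.F x w z) y ∩ pos G U s0).card = _
      rw [nb_mv_other hne h1 hyw h3]

end Pool.Agent.H16.PC
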