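import Pool.Agent.H16.PC.Rot

/-!
# From linear forests to path covers
-/

set_option autoImplicit false

namespace Pool.Agent.H16.PC

open SimpleGraph

variable {V : Type*} [Fintype V] [DecidableEq V]

/-- A component of a graph of maximum degree two has a spanning path; if the graph is acyclic, the
total degree of the component is at most twice its size minus two. -/
theorem exists_span {F : SimpleGraph V} (hac : F.IsAcyclic) (h2 : ∀ v, dg F v ≤ 2) (a0 : V) :
    ∃ (a b : V) (p : F.Walk a b), p.IsPath ∧ (∀ v, v ∈ p.support ↔ F.Reachable a0 v) ∧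
      2 + p.support.toFinset.sum (dg F) ≤ 2 * p.support.toFinset.card := by
  classical
  -- a longest path
  obtain ⟨a, b, p, hp, hra, hmax⟩ : ∃ (a b : V) (p : F.Walk a b), p.IsPath ∧ F.Reachable a0 a ∧
      ∀ (a' b' : V) (q : F.Walk a' b'), q.IsPath → F.Reachable a0 a' → q.length ≤ p.length := by
    have hne : ∃ n, ∃ (a b : V) (p : F.Walk a b), p.IsPath ∧ F.Reachable a0 a ∧
        Fintype.card V - p.length = n :=
      ⟨_, a0, a0, SimpleGraph.Walk.nil, SimpleGraph.Walk.IsPath.nil, Reachable.refl _, rfl⟩
    obtain ⟨a, b, p, hp, hra, he⟩ := Nat.find_spec hne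
    refine ⟨a, b, p, hp, hra, ?_⟩
    intro a' b' q hq hra'
    have h1 := Nat.find_min' hne ⟨a', b', q, hq, hra', rfl⟩
    have h3 := hq.length_lt
    have h4 := hp.length_lt
    omega
  -- the neighbours of vertices on the path are on the path
  have hclosed : ∀ s ∈ p.support, ∀ w, F.Adj s w → w ∈ p.support := by
    intro s hs w hsw
    by_contra hw
    by_cases hsa : s = a
    · subst hsa
      have hq : (SimpleGraph.Walk.cons hsw.symm p).IsPath := by
        rw [SimpleGraph.Walk.cons_isPath_iff]
        exact ⟨hp, hw⟩
      have := hmax _ _ _ hq (hra.trans hsw.reachable)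
      rw [SimpleGraph.Walk.length_cons] at this
      omega
    · by_cases hsb : s = b
      · subst hsb
        have hq : (SimpleGraph.Walk.cons hsw.symm p.reverse).IsPath := by
          rw [SimpleGraph.Walk.cons_isPath_iff]
          refine ⟨hp.reverse, ?_⟩
          rwa [SimpleGraph.Walk.support_reverse, List.mem_reverse]
        have hrw : F.Reachable a0 w := (hra.trans p.reachable).trans hsw.reachable
        have := hmax _ _ _ hq hrw
        rw [SimpleGraph.Walk.length_cons, SimpleGraph.Walk.length_reverse] at this
        omega
      · obtain ⟨n, hn, hnl⟩ := SimpleGraph.Walk.mem_support_iff_exists_getVert.1 hs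
        have hn0 : n ≠ 0 := by
          rintro rfl
          rw [SimpleGraph.Walk.getVert_zero] at hn
          exact hsa hn.symm
        have hnl' : n ≠ p.length := by
          rintro rfl
          rw [SimpleGraph.Walk.getVert_length] at hn
          exact hsb hn.symm
        obtain ⟨m, rfl⟩ := Nat.exists_eq_succ_of_ne_zero hn0
        have hu1 : F.Adj s (p.getVert m) := by
          rw [← hn]
          exact (p.adj_getVert_succ (by omega)).symm
        have hu2 : F.Adj s (p.getVert (m + 1 + 1)) := by
          rw [← hn]
          exact p.adj_getVert_succ (by omega)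
        have hne : p.getVert m ≠ p.getVert (m + 1 + 1) := by
          intro h
          have := hp.getVert_injOn (by rw [Set.mem_setOf_eq]; omega)
            (by rw [Set.mem_setOf_eq]; omega) h
          omega
        have hw1 : w ≠ p.getVert m := by
          rintro rfl
          exact hw (SimpleGraph.Walk.getVert_mem_support _ _)
        have hw2 : w ≠ p.getVert (m + 1 + 1) := by
          rintro rfl
          exact hw (SimpleGraph.Walk.getVert_mem_support _ _)
        have hsub : ({w, p.getVert m, p.getVert (m + 1 + 1)} : Finset V) ⊆ nb F s := by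
          intro t ht
          rw [Finset.mem_insert, Finset.mem_insert, Finset.mem_singleton] at ht
          rcases ht with rfl | rfl | rfl
          · exact mem_nb.2 hsw
          · exact mem_nb.2 hu1
          · exact mem_nb.2 hu2
        have hc := Finset.card_le_card hsub
        rw [Finset.card_eq_three.2 ⟨w, _, _, hw1, hw2, hne, rfl⟩] at hc
        have := h2 s
        unfold dg at this
        omega
  have hsupp : ∀ v, v ∈ p.support ↔ F.Reachable a0 v := by
    intro v
    constructor
    · intro hv
      exact hra.trans ⟨p.takeUntil v hv⟩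
    · intro hv
      by_contra hnv
      obtain ⟨q⟩ := hra.symm.trans hv
      obtain ⟨d, _, hd1, hd2⟩ := q.exists_boundary_dart {v | v ∈ p.support}
        (SimpleGraph.Walk.start_mem_support p) hnv
      exact hd2 (hclosed _ hd1 _ d.adj)
  refine ⟨a, b, p, hp, hsupp, ?_⟩
  by_cases hnil : p.Nil
  · have hab : a = b := hnil.eq
    subst hab
    have hpn : p.support = [a] := by
      rw [SimpleGraph.Walk.nil_iff_support_eq] at hnil
      exact hnil
    have hda : dg F a = 0 := by
      unfold dg
      rw [Finset.card_eq_zero, Finset.eq_empty_iff_forall_notMem]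
      intro w hw
      have hw' := hclosed a (SimpleGraph.Walk.start_mem_support p) w (mem_nb.1 hw)
      rw [hpn, List.mem_singleton] at hw'
      rw [hw'] at hw
      exact (mem_nb.1 hw).ne rfl
    rw [hpn]
    simp [hda]
  · have hab : a ≠ b := by
      rintro rfl
      apply hnil
      rw [SimpleGraph.Walk.isPath_iff_eq_nil] at hp
      rw [hp]
      exact SimpleGraph.Walk.Nil.nil
    have hda : dg F a ≤ 1 := by
      have : nb F a ⊆ {p.snd} := by
        intro w hw
        rw [Finset.mem_singleton]
        exact hac.eq_snd_of_adj_start hp (mem_nb.1 hw)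
          (hclosed a (SimpleGraph.Walk.start_mem_support p) w (mem_nb.1 hw))
      have := Finset.card_le_card this
      rwa [Finset.card_singleton] at this
    have hdb : dg F b ≤ 1 := by
      have : nb F b ⊆ {p.reverse.snd} := by
        intro w hw
        rw [Finset.mem_singleton]
        apply hac.eq_snd_of_adj_start hp.reverse (mem_nb.1 hw)
        rw [SimpleGraph.Walk.support_reverse, List.mem_reverse]
        exact hclosed b (SimpleGraph.Walk.end_mem_support p) w (mem_nb.1 hw)
      have := Finset.card_le_card this
      rwa [Finset.card_singleton] at this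
    set S := p.support.toFinset with hS
    have haS : a ∈ S := List.mem_toFinset.2 (SimpleGraph.Walk.start_mem_support p)
    have hbS : b ∈ S.erase a := by
      rw [Finset.mem_erase]
      exact ⟨hab.symm, List.mem_toFinset.2 (SimpleGraph.Walk.end_mem_support p)⟩
    rw [← Finset.add_sum_erase _ _ haS, ← Finset.add_sum_erase _ _ hbS]
    have h3 : ∑ x ∈ (S.erase a).erase b, dg F x ≤ ((S.erase a).erase b).card * 2 := by
      rw [← smul_eq_mul]
      exact Finset.sum_le_card_nsmul _ _ _ (fun x _ => h2 x)
    have h4 := Finset.card_erase_add_one haS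
    have h5 := Finset.card_erase_add_one hbS
    omega

/-- The components of a linear forest form a path cover. -/
theorem exists_cover {F : SimpleGraph V} (hac : F.IsAcyclic) (h2 : ∀ v, dg F v ≤ 2) :
    ∃ (k : ℕ) (u v : Fin k → V) (p : ∀ i, F.Walk (u i) (v i)),
      (∀ i, (p i).IsPath) ∧ (∀ x : V, ∃! i, x ∈ (p i).support) ∧
      2 * k + ∑ v, dg F v ≤ 2 * Fintype.card V := by
  classical
  have hspan : ∀ c : F.ConnectedComponent, ∃ (a b : V) (p : F.Walk a b), p.IsPath ∧
      (∀ v, v ∈ p.support ↔ F.connectedComponentMk v = c) ∧
      2 + p.support.toFinset.sum (dg F) ≤ 2 * p.support.toFinset.card := by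
    intro c
    induction c using SimpleGraph.ConnectedComponent.ind with
    | h a0 =>
      obtain ⟨a, b, p, hp, hs, hd⟩ := exists_span hac h2 a0
      refine ⟨a, b, p, hp, ?_, hd⟩
      intro v
      rw [hs v, SimpleGraph.ConnectedComponent.eq]
      exact ⟨fun h => h.symm, fun h => h.symm⟩
  choose a b p hp hs hd using hspan
  let e := Fintype.equivFin F.ConnectedComponent
  refine ⟨Fintype.card F.ConnectedComponent, fun i => a (e.symm i), fun i => b (e.symm i),
    fun i => p (e.symm i), fun i => hp _, ?_, ?_⟩
  · intro x
    refine ⟨e (F.connectedComponentMk x), ?_, ?_⟩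
    · show x ∈ (p (e.symm (e (F.connectedComponentMk x)))).support
      rw [hs, Equiv.symm_apply_apply]
    · intro i hi
      have hi' : x ∈ (p (e.symm i)).support := hi
      rw [hs] at hi'
      rw [hi', Equiv.apply_symm_apply]
  · have hfil : ∀ c, (p c).support.toFinset =
        Finset.univ.filter (fun v => F.connectedComponentMk v = c) := by
      intro c
      ext v
      rw [List.mem_toFinset, hs, Finset.mem_filter]
      simp
    have h3 : ∑ c : F.ConnectedComponent, (2 + (p c).support.toFinset.sum (dg F)) ≤
        ∑ c : F.ConnectedComponent, 2 * (p c).support.toFinset.card :=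
      Finset.sum_le_sum (fun c _ => hd c)
    have h4 : ∑ c : F.ConnectedComponent, (p c).support.toFinset.sum (dg F) = ∑ v, dg F v := by
      simp_rw [hfil]
      exact Finset.sum_fiberwise _ _ _
    have h5 : ∑ c : F.ConnectedComponent, (p c).support.toFinset.card = Fintype.card V := by
      simp_rw [hfil, Finset.card_eq_sum_ones]
      rw [Finset.sum_fiberwise Finset.univ (fun v => F.connectedComponentMk v) (fun _ => 1)]
      simp
    rw [Finset.sum_add_distrib, ← Finset.mul_sum, h4, h5] at h3
    simp only [Finset.sum_const, Finset.card_univ, smul_eq_mul] at h3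
    omega

end Pool.Agent.H16.PC
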