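import Pool.Agent.H16.PC.Loc

/-!
# Classes of maximal density
-/

set_option autoImplicit false

namespace Pool.Agent.H16.PC

open SimpleGraph

variable {V : Type*} [Fintype V] [DecidableEq V] {G : SimpleGraph V} {U : Finset V}

/-- `s0` has the largest density (number of tokens divided by the number of positions). -/
def Dense (G : SimpleGraph V) (U : Finset V) (s0 : St V) : Prop :=
  Good G U s0 ∧ 1 ≤ tot s0 ∧ ∀ s, Good G U s → 1 ≤ tot s →
    tot s * (pos G U s0).card ≤ tot s0 * (pos G U s).card

/-- Restriction of the tokens to a set. -/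
def res (s : St V) (W : Finset V) : St V := ⟨s.F, fun v => if v ∈ W then s.T v else 0⟩

theorem res_good {s : St V} (hs : Good G U s) (W : Finset V) : Good G U (res s W) := by
  refine ⟨hs.1, ?_, ?_⟩
  · intro v
    have := hs.2.1 v
    show (if v ∈ W then s.T v else 0) + dg s.F v ≤ 2
    split_ifs <;> omega
  · intro v hv
    show (if v ∈ W then s.T v else 0) = 0
    rw [hs.2.2 v hv]
    simp

theorem tot_res (s : St V) (W : Finset V) : tot (res s W) = ∑ v ∈ W, s.T v := by
  unfold tot res
  simp only
  rw [← Finset.sum_filter]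
  congr 1
  ext v
  simp

theorem tot_split (s : St V) (W : Finset V) :
    tot s = ∑ v ∈ W, s.T v + ∑ v ∈ Wᶜ, s.T v := by
  unfold tot
  exact (Finset.sum_add_sum_compl W s.T).symm

/-- The main inequality for vertices with exactly one neighbour carrying tokens. -/
theorem dense_one (hG : Bip G U) {s0 : St V} (h0 : Dense G U s0) {y : V}
    (hf : (nb s0.F y ∩ pos G U s0).card = 1) (hy : y ∉ U) :
    tot s0 * (nb G y ∩ pos G U s0).card ≤ (pos G U s0).card := by
  obtain ⟨hg, h1, hmax⟩ := h0
  set X := pos G U s0 with hX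
  set W := X \ nb G y with hW
  have hcard : (nb G y ∩ X).card + W.card = X.card := by
    rw [Finset.inter_comm, hW]
    exact Finset.card_inter_add_card_sdiff X (nb G y)
  -- at most one token next to y
  have hle : ∀ s, Reach G U s0 s → ∑ x ∈ nb G y, s.T x ≤ 1 := by
    intro s hs
    by_contra hcon
    have := two_le_f hG hg hs (y := y) (by omega)
    rw [reach_f hG hg hs hy, ← hX] at this
    omega
  have hW1 : ∀ s, Reach G U s0 s → tot s0 ≤ ∑ v ∈ W, s.T v + 1 := by
    intro s hs
    rw [← reach_tot hs, tot_split s W]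
    have h2 : ∑ v ∈ Wᶜ, s.T v ≤ ∑ x ∈ nb G y, s.T x := by
      have h3 : ∑ v ∈ Wᶜ, s.T v = ∑ v ∈ Wᶜ ∩ nb G y, s.T v := by
        symm
        apply Finset.sum_subset Finset.inter_subset_left
        intro v hv hv'
        by_contra hne
        have hvX : v ∈ X := mem_pos.2 ⟨s, hs, Nat.one_le_iff_ne_zero.2 hne⟩
        rw [Finset.mem_compl, hW, Finset.mem_sdiff] at hv
        apply hv'
        rw [Finset.mem_inter, Finset.mem_compl, hW, Finset.mem_sdiff]
        refine ⟨hv, ?_⟩
        by_contra h4
        exact hv ⟨hvX, h4⟩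
      rw [h3]
      exact Finset.sum_le_sum_of_subset Finset.inter_subset_right
    have := hle s hs
    omega
  -- a state with the fewest tokens in W
  obtain ⟨s1, hs1, hmin⟩ : ∃ s1, Reach G U s0 s1 ∧
      ∀ s, Reach G U s0 s → ∑ v ∈ W, s1.T v ≤ ∑ v ∈ W, s.T v := by
    classical
    have hne : ∃ n, ∃ s, Reach G U s0 s ∧ ∑ v ∈ W, s.T v = n :=
      ⟨_, s0, Relation.ReflTransGen.refl, rfl⟩
    obtain ⟨s1, hs1, he⟩ := Nat.find_spec hne
    refine ⟨s1, hs1, ?_⟩
    intro s hs
    rw [he]
    exact Nat.find_min' hne ⟨s, hs, rfl⟩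
  have hg1 := reach_good hG hg hs1
  have htr := tot_res s1 W
  by_cases hm : tot (res s1 W) = 0
  · have h2 := hW1 s1 hs1
    have h3 : tot s0 = 1 := by omega
    rw [h3, one_mul]
    exact Finset.card_le_card Finset.inter_subset_right
  · have hsub : pos G U (res s1 W) ⊆ W := by
      intro v hv
      obtain ⟨s', hs', hv'⟩ := mem_pos.1 hv
      have hlift := reach_lift hs' (fun v => if v ∈ W then 0 else s1.T v)
      have he : (⟨(res s1 W).F, fun v => (res s1 W).T v + (if v ∈ W then 0 else s1.T v)⟩ : St V)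
          = s1 := by
        have h4 : ∀ v, (res s1 W).T v + (if v ∈ W then 0 else s1.T v) = s1.T v := by
          intro v
          show (if v ∈ W then s1.T v else 0) + (if v ∈ W then 0 else s1.T v) = s1.T v
          split_ifs <;> simp
        cases s1
        simp only [h4]
        rfl
      rw [he] at hlift
      have h5 := hmin _ (hs1.trans hlift)
      have h6 : ∑ v ∈ W, (s'.T v + (if v ∈ W then 0 else s1.T v)) = ∑ v ∈ W, s'.T v := by
        apply Finset.sum_congr rfl
        intro v hv
        rw [if_pos hv, add_zero]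
      have h7 : ∑ v ∈ W, s1.T v ≤ ∑ v ∈ W, s'.T v := by
        rw [← h6]
        exact h5
      have h8 := reach_tot hs'
      rw [tot_split s' W] at h8
      have h9 : ∑ v ∈ Wᶜ, s'.T v = 0 := by omega
      by_contra hvW
      have := Finset.sum_eq_zero_iff.1 h9 v (Finset.mem_compl.2 hvW)
      omega
    have h2 := hmax (res s1 W) (res_good hg1 W) (by omega)
    have h3 := hW1 s1 hs1
    have h4 : (pos G U (res s1 W)).card ≤ W.card := Finset.card_le_card hsub
    have h5 : tot s0 * (pos G U (res s1 W)).card ≤ tot s0 * W.card := Nat.mul_le_mul_left _ h4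
    have h6 : (tot s0 - 1) * X.card ≤ tot (res s1 W) * X.card :=
      Nat.mul_le_mul_right _ (by omega)
    have h7 : tot s0 * (nb G y ∩ X).card + tot s0 * W.card = tot s0 * X.card := by
      rw [← mul_add, hcard]
    have h8 : (tot s0 - 1) * X.card + X.card = tot s0 * X.card := by
      have : tot s0 = (tot s0 - 1) + 1 := by omega
      conv_rhs => rw [this]
      ring
    omega

theorem sum_inter_card (F : SimpleGraph V) (X : Finset V) :
    ∑ y, (nb F y ∩ X).card = ∑ x ∈ X, dg F x := by
  classical
  have h1 : ∀ y, (nb F y ∩ X).card = ∑ x ∈ X, if F.Adj x y then 1 else 0 := by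
    intro y
    rw [Finset.card_eq_sum_ones, Finset.inter_comm, ← Finset.filter_mem_eq_inter,
      Finset.sum_filter]
    apply Finset.sum_congr rfl
    intro x _
    simp only [mem_nb, F.adj_comm]
  simp_rw [h1]
  rw [Finset.sum_comm]
  apply Finset.sum_congr rfl
  intro x _
  unfold dg
  rw [Finset.card_eq_sum_ones]
  unfold nb
  rw [Finset.sum_filter]

/-- The density of every class is at most `2/(d+1)`. -/
theorem dense_bound (hG : Bip G U) {d : ℕ} (hd1 : ∀ u ∈ U, d ≤ dg G u)
    (hd2 : ∀ y, y ∉ U → dg G y ≤ d) {s0 : St V} (h0 : Dense G U s0) :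
    (d + 1) * tot s0 ≤ 2 * (pos G U s0).card := by
  classical
  have hg := h0.1
  have h1 := h0.2.1
  set X := pos G U s0 with hX
  have hXU : X ⊆ U := pos_subset hG hg
  set A := (Finset.univ.filter (fun y => y ∉ U ∧ 2 ≤ (nb s0.F y ∩ X).card)) with hA
  set B := (Finset.univ.filter (fun y => y ∉ U ∧ (nb s0.F y ∩ X).card = 1)) with hB
  -- first sum
  have hs1 : 2 * A.card + B.card ≤ ∑ x ∈ X, dg s0.F x := by
    rw [← sum_inter_card]
    have hAB : Disjoint A B := by
      rw [Finset.disjoint_left]
      intro y hy hy'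
      rw [hA, Finset.mem_filter] at hy
      rw [hB, Finset.mem_filter] at hy'
      omega
    have h2 : ∑ y ∈ A ∪ B, (nb s0.F y ∩ X).card ≤ ∑ y, (nb s0.F y ∩ X).card :=
      Finset.sum_le_sum_of_subset (Finset.subset_univ _)
    rw [Finset.sum_union hAB] at h2
    have h3 : 2 * A.card ≤ ∑ y ∈ A, (nb s0.F y ∩ X).card := by
      rw [mul_comm, ← smul_eq_mul]
      apply Finset.card_nsmul_le_sum
      intro y hy
      rw [hA, Finset.mem_filter] at hy
      exact hy.2.2
    have h4 : B.card = ∑ y ∈ B, (nb s0.F y ∩ X).card := by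
      rw [Finset.card_eq_sum_ones]
      apply Finset.sum_congr rfl
      intro y hy
      rw [hB, Finset.mem_filter] at hy
      exact hy.2.2.symm
    omega
  have hs2 : ∑ x ∈ X, dg s0.F x + tot s0 ≤ 2 * X.card := by
    have h2 : tot s0 = ∑ x ∈ X, s0.T x := by
      unfold tot
      symm
      apply Finset.sum_subset (Finset.subset_univ _)
      intro v _ hv
      by_contra hne
      exact hv (mem_pos.2 ⟨s0, Relation.ReflTransGen.refl, Nat.one_le_iff_ne_zero.2 hne⟩)
    rw [h2, ← Finset.sum_add_distrib, mul_comm, ← smul_eq_mul]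
    apply Finset.sum_le_card_nsmul
    intro x _
    have := hg.2.1 x
    omega
  -- second sum
  have hs3 : d * X.card ≤ ∑ y, (nb G y ∩ X).card := by
    rw [sum_inter_card, mul_comm, ← smul_eq_mul]
    apply Finset.card_nsmul_le_sum
    intro x hx
    exact hd1 x (hXU hx)
  have hs4 : tot s0 * ∑ y, (nb G y ∩ X).card ≤ tot s0 * d * A.card + X.card * B.card := by
    have hsub : ∑ y, (nb G y ∩ X).card = ∑ y ∈ A ∪ B, (nb G y ∩ X).card := by
      symm
      apply Finset.sum_subset (Finset.subset_univ _)
      intro y _ hy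
      rw [Finset.card_eq_zero, Finset.eq_empty_iff_forall_notMem]
      intro x hx
      rw [Finset.mem_inter] at hx
      have hxU := hXU hx.2
      have hyU : y ∉ U := (hG x y (mem_nb.1 hx.1).symm).1 hxU
      obtain ⟨s, hs, hT⟩ := mem_pos.1 hx.2
      have h2 := one_le_f hG hg hs hT (mem_nb.1 hx.1).symm
      rw [reach_f hG hg hs hyU, ← hX] at h2
      apply hy
      rw [Finset.mem_union, hA, hB, Finset.mem_filter, Finset.mem_filter]
      rcases Nat.lt_or_ge 1 (nb s0.F y ∩ X).card with h3 | h3
      · exact Or.inl ⟨Finset.mem_univ _, hyU, h3⟩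
      · exact Or.inr ⟨Finset.mem_univ _, hyU, by omega⟩
    rw [hsub]
    have hAB : Disjoint A B := by
      rw [Finset.disjoint_left]
      intro y hy hy'
      rw [hA, Finset.mem_filter] at hy
      rw [hB, Finset.mem_filter] at hy'
      omega
    rw [Finset.sum_union hAB, mul_add]
    apply Nat.add_le_add
    · rw [mul_assoc]
      apply Nat.mul_le_mul_left
      rw [mul_comm, ← smul_eq_mul]
      apply Finset.sum_le_card_nsmul
      intro y hy
      rw [hA, Finset.mem_filter] at hy
      exact le_trans (Finset.card_le_card Finset.inter_subset_left) (hd2 y hy.2.1)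
    · rw [Finset.mul_sum, mul_comm, ← smul_eq_mul]
      apply Finset.sum_le_card_nsmul
      intro y hy
      rw [hB, Finset.mem_filter] at hy
      exact dense_one hG h0 hy.2.2 hy.2.1
  -- arithmetic
  have hfin : ∀ (t sx a b S : ℤ), 1 ≤ t → 0 ≤ a → 0 ≤ b → 0 ≤ sx → 0 ≤ (d : ℤ) →
      2 * a + b + t ≤ 2 * sx → (d : ℤ) * sx ≤ S → t * S ≤ t * d * a + sx * b →
      ((d : ℤ) + 1) * t ≤ 2 * sx := by
    intro t sx a b S ht ha hb hsx hd h2 h3 h4
    by_contra hcon
    push Not at hcon
    have h5 : t * (d * sx) ≤ t * d * a + sx * b :=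
      le_trans (mul_le_mul_of_nonneg_left h3 (by linarith)) h4
    have htd : 0 ≤ t * d := mul_nonneg (by linarith) hd
    -- d t^2 + t d b ≤ 2 sx b
    have h6 : t * d * (2 * a) ≤ t * d * (2 * sx - t - b) :=
      mul_le_mul_of_nonneg_left (by linarith) htd
    have h7 : t * d * (t + b) ≤ 2 * sx * b := by nlinarith
    have hsx1 : 1 ≤ sx := by
      by_contra h
      have : sx = 0 := by omega
      omega
    by_cases hpos : 0 < 2 * sx - t * d
    · have h8 : b * (2 * sx - t * d) ≤ (2 * sx - t) * (2 * sx - t * d) :=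
        mul_le_mul_of_nonneg_right (by linarith) hpos.le
      have h9 : 2 * sx * ((d + 1) * t) ≤ 2 * sx * (2 * sx) := by nlinarith
      have h10 := le_of_mul_le_mul_left h9 (by linarith)
      linarith
    · push Not at hpos
      have h8 : b * (2 * sx - t * d) ≤ 0 := mul_nonpos_of_nonneg_of_nonpos hb hpos
      have h9 : t * d * t ≤ 0 := by nlinarith
      have hd0 : 0 < (d : ℤ) := by
        rcases hd.lt_or_eq with h | h
        · exact h
        · exfalso
          rw [← h] at hpos
          linarith
      have h10 : 0 < t * d * t := by positivity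
      linarith
  have := hfin (tot s0) X.card A.card B.card (∑ y, (nb G y ∩ X).card : ℕ) (by exact_mod_cast h1)
    (by positivity) (by positivity) (by positivity) (by positivity) (by
      have : 2 * A.card + B.card + tot s0 ≤ 2 * X.card := by omega
      exact_mod_cast this) (by exact_mod_cast hs3) (by exact_mod_cast hs4)
  exact_mod_cast this

/-- Existence of a class of largest density. -/
theorem exists_dense {s : St V} (hs : Good G U s) (h1 : 1 ≤ tot s) :
    ∃ s0, Dense G U s0 := by
  classical
  -- the set of achieved pairs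
  let N := 2 * Fintype.card V
  have hbt : ∀ s : St V, Good G U s → tot s ≤ N := by
    intro s hs
    unfold tot
    calc ∑ v, s.T v ≤ ∑ v : V, 2 := Finset.sum_le_sum (fun v _ => by have := hs.2.1 v; omega)
      _ = N := by simp [N, mul_comm]
  let P : Finset (ℕ × ℕ) := ((Finset.range (N + 1)) ×ˢ (Finset.range (Fintype.card V + 1))).filter
    (fun q => ∃ s, Good G U s ∧ 1 ≤ tot s ∧ tot s = q.1 ∧ (pos G U s).card = q.2)
  have hmem : ∀ s : St V, Good G U s → 1 ≤ tot s → (tot s, (pos G U s).card) ∈ P := by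
    intro s hs h1
    rw [Finset.mem_filter, Finset.mem_product, Finset.mem_range, Finset.mem_range]
    refine ⟨⟨?_, ?_⟩, s, hs, h1, rfl, rfl⟩
    · have := hbt s hs
      show tot s < N + 1
      omega
    · have := Finset.card_le_univ (pos G U s)
      show (pos G U s).card < Fintype.card V + 1
      omega
  obtain ⟨q, hq, hmax⟩ := P.exists_max_image (fun q => (q.1 : ℚ) / q.2) ⟨_, hmem s hs h1⟩
  rw [Finset.mem_filter] at hq
  obtain ⟨_, s0, hs0, ht0, hq1, hq2⟩ := hq
  have hpp : ∀ s : St V, 1 ≤ tot s → 0 < (pos G U s).card := by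
    intro s h1
    have : ∃ v, s.T v ≠ 0 := by
      by_contra hcon
      push Not at hcon
      unfold tot at h1
      rw [Finset.sum_eq_zero (fun v _ => hcon v)] at h1
      omega
    obtain ⟨v, hv⟩ := this
    exact Finset.card_pos.2 ⟨v, mem_pos.2 ⟨s, Relation.ReflTransGen.refl,
      Nat.one_le_iff_ne_zero.2 hv⟩⟩
  refine ⟨s0, hs0, ht0, ?_⟩
  intro s' hs' h1'
  have h2 := hmax _ (hmem s' hs' h1')
  simp only at h2
  rw [← hq1, ← hq2] at h2
  have h3 := hpp s' h1'
  have h4 := hpp s0 ht0
  rw [div_le_div_iff₀ (by exact_mod_cast h3) (by exact_mod_cast h4)] at h2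
  exact_mod_cast h2

/-- **Main inequality.** -/
theorem main_bound (hG : Bip G U) {d : ℕ} (hd1 : ∀ u ∈ U, d ≤ dg G u)
    (hd2 : ∀ y, y ∉ U → dg G y ≤ d) :
    ∃ F, LF G F ∧ (d + 1) * (2 * U.card) ≤ (d + 1) * UD U F + 2 * U.card := by
  classical
  -- a largest linear forest
  have hex : ∃ F, MaxLF G U F := by
    have hb : ∀ F, LF G F → UD U F ≤ 2 * U.card := by
      intro F hF
      unfold UD
      rw [mul_comm, ← smul_eq_mul]
      exact Finset.sum_le_card_nsmul _ _ _ (fun x _ => hF.2.2 x)
    have hne : ∃ n, ∃ F, LF G F ∧ 2 * U.card - UD U F = n := by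
      refine ⟨_, ⊥, ⟨bot_le, isAcyclic_bot, ?_⟩, rfl⟩
      intro v
      unfold dg
      have : nb (⊥ : SimpleGraph V) v = ∅ := by
        ext w
        simp [mem_nb]
      rw [this]
      simp
    obtain ⟨F, hF, he⟩ := Nat.find_spec hne
    refine ⟨F, hF, ?_⟩
    intro F' hF'
    have h1 := Nat.find_min' hne ⟨F', hF', rfl⟩
    have h2 := hb F hF
    have h3 := hb F' hF'
    omega
  obtain ⟨F, hF⟩ := hex
  refine ⟨F, hF.1, ?_⟩
  let s : St V := ⟨F, fun v => if v ∈ U then 2 - dg F v else 0⟩
  have hs : Good G U s := by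
    refine ⟨hF, ?_, ?_⟩
    · intro v
      have := hF.1.2.2 v
      show (if v ∈ U then 2 - dg F v else 0) + dg F v ≤ 2
      split_ifs <;> omega
    · intro v hv
      show (if v ∈ U then 2 - dg F v else 0) = 0
      rw [if_neg hv]
  have htot : tot s + UD U F = 2 * U.card := by
    have h1 : tot s = ∑ v ∈ U, (2 - dg F v) := by
      unfold tot
      show ∑ v, (if v ∈ U then 2 - dg F v else 0) = _
      rw [← Finset.sum_filter]
      congr 1
      ext v
      simp
    rw [h1]
    unfold UD
    rw [← Finset.sum_add_distrib, Finset.sum_congr rfl (g := fun _ => 2)]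
    · simp [mul_comm]
    · intro v _
      have := hF.1.2.2 v
      omega
  by_cases h1 : 1 ≤ tot s
  · obtain ⟨s0, h0⟩ := exists_dense hs h1
    have h2 := dense_bound hG hd1 hd2 h0
    have h3 := h0.2.2 s hs h1
    have h4 : (pos G U s).card ≤ U.card := Finset.card_le_card (pos_subset hG hs)
    -- tot s * |X0| ≤ tot s0 * |U| and (d+1) tot s0 ≤ 2 |X0|
    have h5 : tot s * (pos G U s0).card ≤ tot s0 * U.card :=
      le_trans h3 (Nat.mul_le_mul_left _ h4)
    have h6 : 0 < (pos G U s0).card := by
      rcases Nat.eq_zero_or_pos (pos G U s0).card with h | h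
      · rw [h] at h2
        have := h0.2.1
        nlinarith
      · exact h
    have h7 : (d + 1) * tot s ≤ 2 * U.card := by
      have h8 : (d + 1) * tot s * (pos G U s0).card ≤ 2 * U.card * (pos G U s0).card := by
        calc (d + 1) * tot s * (pos G U s0).card
            = (d + 1) * (tot s * (pos G U s0).card) := by ring
          _ ≤ (d + 1) * (tot s0 * U.card) := Nat.mul_le_mul_left _ h5
          _ = ((d + 1) * tot s0) * U.card := by ring
          _ ≤ (2 * (pos G U s0).card) * U.card := Nat.mul_le_mul_right _ h2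
          _ = 2 * U.card * (pos G U s0).card := by ring
      exact Nat.le_of_mul_le_mul_right h8 h6
    have h9 : (d + 1) * (2 * U.card) = (d + 1) * tot s + (d + 1) * UD U F := by
      rw [← htot, mul_add]
    omega
  · have h2 : tot s = 0 := by omega
    rw [h2, zero_add] at htot
    rw [htot]
    omega

end Pool.Agent.H16.PC
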