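import Pool.Agent.H16.PC.Cls

/-!
# Tokens near a vertex of the other side
-/

set_option autoImplicit false

namespace Pool.Agent.H16.PC

open SimpleGraph

variable {V : Type*} [Fintype V] [DecidableEq V] {G : SimpleGraph V} {U : Finset V}

theorem ad_adj {F : SimpleGraph V} {x y a b : V} (hxy : x ≠ y) :
    (F ⊔ SimpleGraph.edge x y).Adj a b ↔ F.Adj a b ∨ s(a, b) = s(x, y) := by
  rw [SimpleGraph.sup_adj, SimpleGraph.edge_adj, Sym2.eq_iff]
  constructor
  · rintro (h | ⟨h, _⟩)
    · exact Or.inl h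
    · rcases h with ⟨h1, h2⟩ | ⟨h1, h2⟩
      · exact Or.inr (Or.inl ⟨h1, h2⟩)
      · exact Or.inr (Or.inr ⟨h1, h2⟩)
  · rintro (h | ⟨h1, h2⟩ | ⟨h1, h2⟩)
    · exact Or.inl h
    · subst h1; subst h2; exact Or.inr ⟨Or.inl ⟨rfl, rfl⟩, hxy⟩
    · subst h1; subst h2; exact Or.inr ⟨Or.inr ⟨rfl, rfl⟩, hxy.symm⟩

theorem nb_ad_left {F : SimpleGraph V} {x y : V} (hxy : x ≠ y) :
    nb (F ⊔ SimpleGraph.edge x y) x = insert y (nb F x) := by
  ext w
  rw [mem_nb, ad_adj hxy, Finset.mem_insert, mem_nb, Sym2.eq_iff]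
  constructor
  · rintro (h | ⟨_, h⟩ | ⟨h, _⟩)
    · exact Or.inr h
    · exact Or.inl h
    · exact absurd h hxy
  · rintro (rfl | h)
    · exact Or.inr (Or.inl ⟨rfl, rfl⟩)
    · exact Or.inl h

theorem nb_ad_other {F : SimpleGraph V} {x y : V} (hxy : x ≠ y) {v : V} (h1 : v ≠ x)
    (h2 : v ≠ y) : nb (F ⊔ SimpleGraph.edge x y) v = nb F v := by
  ext w
  rw [mem_nb, ad_adj hxy, mem_nb, Sym2.eq_iff]
  constructor
  · rintro (h | ⟨h, _⟩ | ⟨h, _⟩)
    · exact h
    · exact absurd h h1
    · exact absurd h h2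
  · intro h
    exact Or.inl h

/-- A token of a largest linear forest is adjacent, outside its component, only to vertices of
degree two. -/
theorem two_le_of_ext {F : SimpleGraph V} (hF : MaxLF G U F) {x y : V} (hx : x ∈ U)
    (hy : y ∉ U) (hxy : G.Adj x y) (hr : ¬ F.Reachable x y) (hd : dg F x ≤ 1) : 2 ≤ dg F y := by
  by_contra hlt
  have hne : x ≠ y := hxy.ne
  have hn : ¬ F.Adj x y := fun h => hr h.reachable
  obtain ⟨⟨hle, hac, hdg⟩, hmax⟩ := hF
  have hx' : nb (F ⊔ SimpleGraph.edge x y) x = insert y (nb F x) := nb_ad_left hne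
  have hy' : nb (F ⊔ SimpleGraph.edge x y) y = insert x (nb F y) := by
    have : (F ⊔ SimpleGraph.edge x y) = F ⊔ SimpleGraph.edge y x := by
      rw [SimpleGraph.edge_comm]
    rw [this]
    exact nb_ad_left hne.symm
  have hdx : dg (F ⊔ SimpleGraph.edge x y) x = dg F x + 1 := by
    unfold dg
    rw [hx', Finset.card_insert_of_notMem]
    rwa [mem_nb]
  have hdy : dg (F ⊔ SimpleGraph.edge x y) y = dg F y + 1 := by
    unfold dg
    rw [hy', Finset.card_insert_of_notMem]
    rw [mem_nb]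
    exact fun h => hn h.symm
  have hdo : ∀ v, v ≠ x → v ≠ y → dg (F ⊔ SimpleGraph.edge x y) v = dg F v := by
    intro v h1 h2
    unfold dg
    rw [nb_ad_other hne h1 h2]
  have hLF : LF G (F ⊔ SimpleGraph.edge x y) := by
    refine ⟨?_, IsAcyclic.sup_edge_of_not_reachable hr hac, ?_⟩
    · intro a b hab
      rw [ad_adj hne] at hab
      rcases hab with h | h
      · exact hle h
      · rw [Sym2.eq_iff] at h
        rcases h with ⟨rfl, rfl⟩ | ⟨rfl, rfl⟩
        · exact hxy
        · exact hxy.symm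
    · intro v
      by_cases h1 : v = x
      · subst h1; omega
      · by_cases h2 : v = y
        · subst h2; omega
        · rw [hdo v h1 h2]; exact hdg v
  have h := hmax _ hLF
  have hUD : UD U (F ⊔ SimpleGraph.edge x y) = UD U F + 1 := by
    have h3 : ∀ v ∈ U, dg (F ⊔ SimpleGraph.edge x y) v = dg F v + (if v = x then 1 else 0) := by
      intro v hv
      by_cases h1 : v = x
      · subst h1
        rw [hdx, if_pos rfl]
      · have h2 : v ≠ y := by rintro rfl; exact hy hv
        rw [hdo v h1 h2, if_neg h1]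
        rfl
    unfold UD
    rw [Finset.sum_congr rfl h3, Finset.sum_add_distrib]
    simp [hx]
  omega

/-- If a legal edge `y z` can be removed when the token `x` moves along `x y`, then `z` is a
reachable position. -/
theorem mem_pos_of_step (hG : Bip G U) {s0 s : St V} (hs0 : Good G U s0) (h : Reach G U s0 s)
    {x y z : V} (hT : 1 ≤ s.T x) (hxy : G.Adj x y) (hn : ¬ s.F.Adj x y) (hyz : s.F.Adj y z)
    (hr : ¬ (s.F.deleteEdges {s(y, z)}).Reachable x y) : z ∈ pos G U s0 := by
  have hs := reach_good hG hs0 h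
  have hx : x ∈ U := by
    by_contra hx
    have := hs.2.2 x hx
    omega
  have hy : y ∉ U := (hG x y hxy).1 hx
  have hxz : x ≠ z := by rintro rfl; exact hn hyz.symm
  refine mem_pos.2 ⟨⟨mv s.F x y z, upd s.T x z⟩, h.tail ?_, ?_⟩
  · exact ⟨x, y, z, hx, hy, hT, hxy, hn, hyz, mv_isAcyclic hs.1.1.2.1 hr, rfl⟩
  · show 1 ≤ upd s.T x z z
    unfold upd
    rw [if_neg hxz.symm, if_pos rfl]
    omega

/-- A token outside the component of `y`. -/
theorem two_le_f_of_ext (hG : Bip G U) {s0 s : St V} (hs0 : Good G U s0) (h : Reach G U s0 s)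
    {x y : V} (hT : 1 ≤ s.T x) (hxy : G.Adj x y) (hr : ¬ s.F.Reachable x y) :
    2 ≤ (nb s.F y ∩ pos G U s0).card := by
  have hs := reach_good hG hs0 h
  have hx : x ∈ U := by
    by_contra hx
    have := hs.2.2 x hx
    omega
  have hy : y ∉ U := (hG x y hxy).1 hx
  have hn : ¬ s.F.Adj x y := fun h => hr h.reachable
  have hd : dg s.F x ≤ 1 := by
    have := hs.2.1 x
    omega
  have h2 := two_le_of_ext hs.1 hx hy hxy hr hd
  have hsub : nb s.F y ⊆ pos G U s0 := by
    intro z hz
    refine mem_pos_of_step hG hs0 h hT hxy hn (mem_nb.1 hz) ?_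
    intro h'
    exact hr (h'.mono (SimpleGraph.deleteEdges_le _))
  rw [Finset.inter_eq_left.2 hsub]
  exact h2

/-- A token in the component of `y`. -/
theorem exists_f_of_own (hG : Bip G U) {s0 s : St V} (hs0 : Good G U s0) (h : Reach G U s0 s)
    {x y : V} (hT : 1 ≤ s.T x) (hxy : G.Adj x y) (hr : s.F.Reachable x y) :
    ∃ p : s.F.Walk y x, p.IsPath ∧ p.snd ∈ nb s.F y ∩ pos G U s0 := by
  have hs := reach_good hG hs0 h
  by_cases hn : s.F.Adj x y
  · refine ⟨SimpleGraph.Walk.cons hn.symm SimpleGraph.Walk.nil, ?_, ?_⟩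
    · rw [SimpleGraph.Walk.cons_isPath_iff]
      refine ⟨SimpleGraph.Walk.IsPath.nil, ?_⟩
      simp only [SimpleGraph.Walk.support_nil, List.mem_singleton]
      exact hxy.ne.symm
    · rw [Finset.mem_inter]
      constructor
      · rw [mem_nb]
        simpa using hn.symm
      · have : (SimpleGraph.Walk.cons hn.symm (SimpleGraph.Walk.nil' x)).snd = x := by simp
        rw [show (SimpleGraph.Walk.cons hn.symm SimpleGraph.Walk.nil).snd = x from by simp]
        exact mem_pos.2 ⟨s, h, hT⟩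
  · obtain ⟨p, hp, hadj, hnr⟩ := exists_near hs.1.1.2.1 hxy.ne hr.symm
    refine ⟨p, hp, Finset.mem_inter.2 ⟨mem_nb.2 hadj, ?_⟩⟩
    exact mem_pos_of_step hG hs0 h hT hxy hn hadj hnr

theorem one_le_f (hG : Bip G U) {s0 s : St V} (hs0 : Good G U s0) (h : Reach G U s0 s)
    {x y : V} (hT : 1 ≤ s.T x) (hxy : G.Adj x y) :
    1 ≤ (nb s.F y ∩ pos G U s0).card := by
  by_cases hr : s.F.Reachable x y
  · obtain ⟨p, _, hp⟩ := exists_f_of_own hG hs0 h hT hxy hr
    exact Finset.card_pos.2 ⟨_, hp⟩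
  · have := two_le_f_of_ext hG hs0 h hT hxy hr
    omega

theorem two_le_f (hG : Bip G U) {s0 s : St V} (hs0 : Good G U s0) (h : Reach G U s0 s)
    {y : V} (hT : 2 ≤ ∑ x ∈ nb G y, s.T x) :
    2 ≤ (nb s.F y ∩ pos G U s0).card := by
  have hs := reach_good hG hs0 h
  by_cases hA : ∃ x ∈ nb G y, 2 ≤ s.T x
  · obtain ⟨x, hx, hx2⟩ := hA
    have hxy : G.Adj x y := (mem_nb.1 hx).symm
    refine two_le_f_of_ext hG hs0 h (by omega) hxy ?_
    intro hr
    have hd : dg s.F x = 0 := by
      have := hs.2.1 x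
      omega
    obtain ⟨p, hp⟩ := hr.exists_isPath
    have hnil : ¬ p.Nil := by
      intro h'
      exact hxy.ne h'.eq
    have := mem_nb.2 (p.adj_snd hnil)
    have h1 : 0 < dg s.F x := Finset.card_pos.2 ⟨_, this⟩
    omega
  · push Not at hA
    -- two different tokens
    have hex : ∃ x1 ∈ nb G y, ∃ x2 ∈ nb G y, x1 ≠ x2 ∧ 1 ≤ s.T x1 ∧ 1 ≤ s.T x2 := by
      by_contra hcon
      push Not at hcon
      have hle : ∑ x ∈ nb G y, s.T x ≤ 1 := by
        by_cases hz : ∀ x ∈ nb G y, s.T x = 0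
        · rw [Finset.sum_eq_zero hz]
          omega
        · push Not at hz
          obtain ⟨x1, hx1, hx1'⟩ := hz
          rw [← Finset.add_sum_erase _ _ hx1]
          have h0 : ∑ x ∈ (nb G y).erase x1, s.T x = 0 := by
            apply Finset.sum_eq_zero
            intro x hx
            have h3 := hcon x1 hx1 x (Finset.mem_of_mem_erase hx) (Finset.ne_of_mem_erase hx).symm
              (by omega)
            omega
          have := hA x1 hx1
          omega
      omega
    obtain ⟨x1, hx1, x2, hx2, hne, hT1, hT2⟩ := hex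
    have hxy1 : G.Adj x1 y := (mem_nb.1 hx1).symm
    have hxy2 : G.Adj x2 y := (mem_nb.1 hx2).symm
    by_cases hr1 : s.F.Reachable x1 y
    · by_cases hr2 : s.F.Reachable x2 y
      · obtain ⟨p1, hp1, hm1⟩ := exists_f_of_own hG hs0 h hT1 hxy1 hr1
        obtain ⟨p2, hp2, hm2⟩ := exists_f_of_own hG hs0 h hT2 hxy2 hr2
        have hd1 : dg s.F x1 ≤ 1 := by
          have := hs.2.1 x1
          omega
        have hd2 : dg s.F x2 ≤ 1 := by
          have := hs.2.1 x2
          omega
        have hsnd : p1.snd ≠ p2.snd := by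
          intro he
          exact hne (snd_inj hs.1.1.2.2 p1 p2 hp1 hp2 hd1 hd2 hxy1.ne.symm hxy2.ne.symm he)
        have hsub : ({p1.snd, p2.snd} : Finset V) ⊆ nb s.F y ∩ pos G U s0 := by
          intro t ht
          rw [Finset.mem_insert, Finset.mem_singleton] at ht
          rcases ht with rfl | rfl
          · exact hm1
          · exact hm2
        have := Finset.card_le_card hsub
        rwa [Finset.card_pair hsnd] at this
      · exact two_le_f_of_ext hG hs0 h hT2 hxy2 hr2
    · exact two_le_f_of_ext hG hs0 h hT1 hxy1 hr1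

end Pool.Agent.H16.PC
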