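import Mathlib

/-!
# Rotations of linear forests

`nb F v` is the finite set of neighbours of `v` in the graph `F`, `dg F v` its size. `mv F x y z` is
the graph `F` with the edge `y z` removed and the edge `x y` added.
-/

set_option autoImplicit false

namespace Pool.Agent.H16.PC

open SimpleGraph

variable {V : Type*} [Fintype V]

open Classical in
/-- The neighbours of `v` in `F`. -/
noncomputable def nb (F : SimpleGraph V) (v : V) : Finset V :=
  Finset.univ.filter (fun w => F.Adj v w)

/-- The degree of `v` in `F`. -/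
noncomputable def dg (F : SimpleGraph V) (v : V) : ℕ := (nb F v).card

theorem mem_nb {F : SimpleGraph V} {v w : V} : w ∈ nb F v ↔ F.Adj v w := by
  classical
  simp [nb]

/-- Remove the edge `y z`, add the edge `x y`. -/
def mv (F : SimpleGraph V) (x y z : V) : SimpleGraph V :=
  (F.deleteEdges {s(y, z)}) ⊔ SimpleGraph.edge x y

theorem mv_adj {F : SimpleGraph V} {x y z a b : V} (hxy : x ≠ y) :
    (mv F x y z).Adj a b ↔ (F.Adj a b ∧ ¬ (s(a, b) = s(y, z))) ∨ s(a, b) = s(x, y) := by
  unfold mv
  rw [SimpleGraph.sup_adj, SimpleGraph.deleteEdges_adj, SimpleGraph.edge_adj]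
  constructor
  · rintro (⟨h1, h2⟩ | ⟨h1, _⟩)
    · exact Or.inl ⟨h1, by simpa using h2⟩
    · right
      rcases h1 with ⟨rfl, rfl⟩ | ⟨rfl, rfl⟩
      · rfl
      · exact Sym2.eq_swap
  · rintro (⟨h1, h2⟩ | h)
    · exact Or.inl ⟨h1, by simpa using h2⟩
    · right
      rw [Sym2.eq_iff] at h
      rcases h with ⟨rfl, rfl⟩ | ⟨rfl, rfl⟩
      · exact ⟨Or.inl ⟨rfl, rfl⟩, hxy⟩
      · exact ⟨Or.inr ⟨rfl, rfl⟩, hxy.symm⟩

theorem mv_isAcyclic {F : SimpleGraph V} (hF : F.IsAcyclic) {x y z : V}
    (h : ¬ (F.deleteEdges {s(y, z)}).Reachable x y) : (mv F x y z).IsAcyclic := by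
  unfold mv
  exact IsAcyclic.sup_edge_of_not_reachable h (hF.anti (SimpleGraph.deleteEdges_le _))

section
variable {F : SimpleGraph V} {x y z : V}

theorem nb_mv_x [DecidableEq V] (hxy : x ≠ y) (hxz : x ≠ z) :
    nb (mv F x y z) x = insert y (nb F x) := by
  ext w
  rw [mem_nb, mv_adj hxy, Finset.mem_insert, mem_nb]
  constructor
  · rintro (⟨h, _⟩ | h)
    · exact Or.inr h
    · rw [Sym2.eq_iff] at h
      rcases h with ⟨_, h⟩ | ⟨h, _⟩
      · exact Or.inl h
      · exact absurd h hxy
  · rintro (rfl | h)
    · exact Or.inr rfl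
    · left
      refine ⟨h, ?_⟩
      intro h'
      rw [Sym2.eq_iff] at h'
      rcases h' with ⟨h', _⟩ | ⟨h', _⟩
      · exact hxy h'
      · exact hxz h'

theorem nb_mv_z [DecidableEq V] (hxy : x ≠ y) (hxz : x ≠ z) (hyz : y ≠ z) :
    nb (mv F x y z) z = (nb F z).erase y := by
  ext w
  rw [mem_nb, mv_adj hxy, Finset.mem_erase, mem_nb]
  constructor
  · rintro (⟨h, h'⟩ | h)
    · refine ⟨?_, h⟩
      rintro rfl
      exact h' Sym2.eq_swap
    · rw [Sym2.eq_iff] at h
      rcases h with ⟨h, _⟩ | ⟨h, _⟩
      · exact absurd h.symm hxz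
      · exact absurd h.symm hyz
  · rintro ⟨h1, h2⟩
    left
    refine ⟨h2, ?_⟩
    intro h'
    rw [Sym2.eq_iff] at h'
    rcases h' with ⟨h', _⟩ | ⟨_, h'⟩
    · exact hyz h'.symm
    · exact h1 h'

theorem nb_mv_y [DecidableEq V] (hxy : x ≠ y) (hyz : y ≠ z) :
    nb (mv F x y z) y = insert x ((nb F y).erase z) := by
  ext w
  rw [mem_nb, mv_adj hxy, Finset.mem_insert, Finset.mem_erase, mem_nb]
  constructor
  · rintro (⟨h, h'⟩ | h)
    · right
      refine ⟨?_, h⟩
      rintro rfl
      exact h' rfl
    · rw [Sym2.eq_iff] at h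
      rcases h with ⟨h, _⟩ | ⟨_, h⟩
      · exact absurd h.symm hxy
      · exact Or.inl h
  · rintro (rfl | ⟨h1, h2⟩)
    · exact Or.inr Sym2.eq_swap
    · left
      refine ⟨h2, ?_⟩
      intro h'
      rw [Sym2.eq_iff] at h'
      rcases h' with ⟨_, h'⟩ | ⟨h', _⟩
      · exact h1 h'
      · exact hyz h'

theorem nb_mv_other (hxy : x ≠ y) {v : V} (h1 : v ≠ x) (h2 : v ≠ y) (h3 : v ≠ z) :
    nb (mv F x y z) v = nb F v := by
  ext w
  rw [mem_nb, mv_adj hxy, mem_nb]
  constructor
  · rintro (⟨h, _⟩ | h)
    · exact h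
    · rw [Sym2.eq_iff] at h
      rcases h with ⟨h, _⟩ | ⟨h, _⟩
      · exact absurd h h1
      · exact absurd h h2
  · intro h
    left
    refine ⟨h, ?_⟩
    intro h'
    rw [Sym2.eq_iff] at h'
    rcases h' with ⟨h', _⟩ | ⟨h', _⟩
    · exact h2 h'
    · exact h3 h'

theorem dg_mv_x (hxy : x ≠ y) (hxz : x ≠ z) (hn : ¬ F.Adj x y) :
    dg (mv F x y z) x = dg F x + 1 := by
  classical
  unfold dg
  rw [nb_mv_x hxy hxz, Finset.card_insert_of_notMem]
  rwa [mem_nb]

theorem dg_mv_z (hxy : x ≠ y) (hxz : x ≠ z) (hyz : F.Adj y z) :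
    dg (mv F x y z) z + 1 = dg F z := by
  classical
  unfold dg
  rw [nb_mv_z hxy hxz hyz.ne]
  exact Finset.card_erase_add_one (mem_nb.2 hyz.symm)

theorem dg_mv_y (hxy : x ≠ y) (hyz : F.Adj y z) (hn : ¬ F.Adj x y) :
    dg (mv F x y z) y = dg F y := by
  classical
  unfold dg
  rw [nb_mv_y hxy hyz.ne, Finset.card_insert_of_notMem, Finset.card_erase_add_one (mem_nb.2 hyz)]
  rw [Finset.mem_erase, mem_nb]
  rintro ⟨_, h⟩
  exact hn h.symm

theorem dg_mv_other (hxy : x ≠ y) {v : V} (h1 : v ≠ x) (h2 : v ≠ y) (h3 : v ≠ z) :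
    dg (mv F x y z) v = dg F v := by
  unfold dg
  rw [nb_mv_other hxy h1 h2 h3]

end

/-- If `x` is reachable from its non-neighbour `y`, the first edge `y z` of the path from `y` to `x`
is a legal edge to remove. -/
theorem exists_near {F : SimpleGraph V} (hF : F.IsAcyclic) {x y : V} (hxy : x ≠ y)
    (hr : F.Reachable y x) :
    ∃ p : F.Walk y x, p.IsPath ∧ F.Adj y p.snd ∧
      ¬ (F.deleteEdges {s(y, p.snd)}).Reachable x y := by
  classical
  obtain ⟨p, hp⟩ := hr.exists_isPath
  refine ⟨p, hp, ?_, ?_⟩
  · exact p.adj_snd (by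
      intro h
      exact hxy (h.eq).symm)
  · intro hr'
    obtain ⟨q, hq⟩ := hr'.symm.exists_isPath
    have hle : F.deleteEdges {s(y, p.snd)} ≤ F := SimpleGraph.deleteEdges_le _
    have hq' : (q.mapLe hle).IsPath := (SimpleGraph.Walk.mapLe_isPath hle).2 hq
    have := hF.path_unique ⟨p, hp⟩ ⟨q.mapLe hle, hq'⟩
    have hpq : p = q.mapLe hle := congrArg Subtype.val this
    have hmem : s(y, p.snd) ∈ p.edges := by
      have hnil : ¬ p.Nil := by
        intro h
        exact hxy (h.eq).symm
      exact p.mk_start_snd_mem_edges hnil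
    rw [hpq] at hmem
    rw [SimpleGraph.Walk.edges_mapLe_eq_edges] at hmem
    have := q.edges_subset_edgeSet hmem
    rw [SimpleGraph.edgeSet_deleteEdges] at this
    apply this.2
    rw [← hpq]
    rfl

/-- In a graph of maximum degree two, paths from `y` to two vertices of degree at most one which
start with the same edge have the same end. -/
theorem snd_inj {F : SimpleGraph V} (h2 : ∀ v, dg F v ≤ 2) {y x1 : V} (p1 : F.Walk y x1) :
    ∀ {x2 : V} (p2 : F.Walk y x2), p1.IsPath → p2.IsPath → dg F x1 ≤ 1 → dg F x2 ≤ 1 →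
      y ≠ x1 → y ≠ x2 → p1.snd = p2.snd → x1 = x2 := by
  classical
  induction p1 with
  | nil => intro x2 p2 _ _ _ _ h; exact absurd rfl h
  | @cons u v w h p ih =>
    intro x2 p2 hp1 hp2 hd1 hd2 hne1 hne2 hsnd
    cases p2 with
    | nil => exact absurd rfl hne2
    | @cons _ v' _ h' q =>
      have hvv : v = v' := by simpa using hsnd
      subst hvv
      rw [SimpleGraph.Walk.cons_isPath_iff] at hp1 hp2
      cases p with
      | nil =>
        cases q with
        | nil => rfl
        | @cons _ a _ h'' q' =>
          exfalso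
          have ha : a ≠ u := by
            rintro rfl
            exact hp2.2 (by simp)
          have : ({u, a} : Finset V) ⊆ nb F v := by
            intro t ht
            rw [Finset.mem_insert, Finset.mem_singleton] at ht
            rcases ht with rfl | rfl
            · exact mem_nb.2 h.symm
            · exact mem_nb.2 h''
          have hc := Finset.card_le_card this
          rw [Finset.card_pair (Ne.symm ha)] at hc
          unfold dg at hd1
          omega
      | @cons _ b _ h3 p' =>
        have hb : b ≠ u := by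
          rintro rfl
          exact hp1.2 (by simp)
        cases q with
        | nil =>
          exfalso
          have : ({u, b} : Finset V) ⊆ nb F v := by
            intro t ht
            rw [Finset.mem_insert, Finset.mem_singleton] at ht
            rcases ht with rfl | rfl
            · exact mem_nb.2 h.symm
            · exact mem_nb.2 h3
          have hc := Finset.card_le_card this
          rw [Finset.card_pair (Ne.symm hb)] at hc
          unfold dg at hd2
          omega
        | @cons _ a _ h'' q' =>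
          have ha : a ≠ u := by
            rintro rfl
            exact hp2.2 (by simp)
          have hab : b = a := by
            by_contra hab
            have : ({u, a, b} : Finset V) ⊆ nb F v := by
              intro t ht
              rw [Finset.mem_insert, Finset.mem_insert, Finset.mem_singleton] at ht
              rcases ht with rfl | rfl | rfl
              · exact mem_nb.2 h.symm
              · exact mem_nb.2 h''
              · exact mem_nb.2 h3
            have hc := Finset.card_le_card this
            rw [Finset.card_eq_three.2 ⟨u, a, b, Ne.symm ha, Ne.symm hb, Ne.symm hab, rfl⟩] at hc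
            have := h2 v
            unfold dg at this
            omega
          have hv1 : v ≠ w := by
            rintro rfl
            have := hp1.1
            rw [SimpleGraph.Walk.cons_isPath_iff] at this
            exact this.2 (SimpleGraph.Walk.end_mem_support _)
          have hv2 : v ≠ x2 := by
            rintro rfl
            have := hp2.1
            rw [SimpleGraph.Walk.cons_isPath_iff] at this
            exact this.2 (SimpleGraph.Walk.end_mem_support _)
          exact ih (SimpleGraph.Walk.cons h'' q') hp1.1 hp2.1 hd1 hd2 hv1 hv2 (by simpa using hab)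

end Pool.Agent.H16.PC
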